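import Pool.Agent.Helper78.ZM.Stmts

/-!
Project ZM (MP_ccc3c9_an), module Z9: properties of the limit function.
-/

open MeasureTheory Filter Topology
open scoped ContDiff Real ENNReal

set_option autoImplicit false

namespace Pool.Agent.Helper94.ZM

open Pool.Agent.Helper78.ZM

theorem continuous_nrm {n : ℕ} : Continuous (nrm : Cn n → ℝ) := by
  unfold nrm
  fun_prop

theorem continuous_Phi {m : ℕ} {F : Cn (m + 2) → ℂ} (hF : Continuous F) (N : ℕ)
    (j : Fin (m + 2)) : Continuous (fun x => Phi F N x j) := by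
  unfold Phi
  by_cases hj : j = 0
  · subst hj
    simpa using hF
  · simp only [Function.update_of_ne hj]
    fun_prop

section

variable {m N0 : ℕ} {M0 : ℝ} {F : ℕ → Cn (m + 2) → ℂ} {τ r : ℕ → ℝ}

theorem continuous_hh (C : Constr m N0 M0 F τ r) (k : ℕ) : Continuous (hh N0 F τ k) := by
  unfold hh lg
  have h1 : ∀ j, Continuous (fun x => Phi (F k) (N0 * 2 ^ k) x j) := fun j =>
    continuous_Phi (C.smooth k).continuous _ j
  refine Continuous.add (Continuous.mul continuous_const (Continuous.log ?_ ?_)) continuous_const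
  · exact (continuous_finsetSum _ fun j _ => ((h1 j).norm.pow 2)).add continuous_const
  · intro x
    have := C.tau_pos k
    positivity

theorem anti_le (C : Constr m N0 M0 F τ r) {x : Cn (m + 2)} (hx : nrm x ≤ 1) {j k : ℕ}
    (hjk : k ≤ j) : hh N0 F τ j x ≤ hh N0 F τ k x := by
  induction j, hjk using Nat.le_induction with
  | base => exact le_rfl
  | succ j _ ih => exact (C.anti j x hx).trans ih

theorem r_anti (C : Constr m N0 M0 F τ r) {j k : ℕ} (hjk : k ≤ j) : r j ≤ r k := by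
  induction j, hjk using Nat.le_induction with
  | base => exact le_rfl
  | succ j _ ih =>
    have h1 := C.r_half j
    have h2 := C.r_pos j
    linarith

theorem r_le (C : Constr m N0 M0 F τ r) (k : ℕ) : r k ≤ 1 / 4 * (1 / 2) ^ k := by
  induction k with
  | zero => simp [C.r_zero]
  | succ k ih =>
    have h1 := C.r_half k
    rw [pow_succ]
    linarith

theorem r_tendsto (C : Constr m N0 M0 F τ r) : Tendsto r atTop (𝓝 0) := by
  have h1 : Tendsto (fun k : ℕ => (1 / 4 : ℝ) * (1 / 2) ^ k) atTop (𝓝 (1 / 4 * 0)) :=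
    (tendsto_pow_atTop_nhds_zero_of_lt_one (by norm_num) (by norm_num)).const_mul _
  rw [mul_zero] at h1
  exact squeeze_zero (fun k => (C.r_pos k).le) (r_le C) h1

theorem lower (hN : 1 ≤ N0) (C : Constr m N0 M0 F τ r) {x : Cn (m + 2)} {j k : ℕ}
    (hk : r k ≤ nrm x) (hx : nrm x ≤ 1) (hjk : k ≤ j) :
    hh N0 F τ k x - 2 * (m + 3) / ((N0 : ℝ) * 2 ^ k) + 2 * (m + 3) / ((N0 : ℝ) * 2 ^ j) ≤
      hh N0 F τ j x := by
  have hN' : (0 : ℝ) < N0 := by exact_mod_cast hN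
  induction j, hjk using Nat.le_induction with
  | base => linarith
  | succ j hkj ih =>
    have h1 := C.close j x ((r_anti C hkj).trans hk) hx
    have h2 : 2 * ((m : ℝ) + 3) / ((N0 : ℝ) * 2 ^ j) =
        ((m : ℝ) + 3) / ((N0 : ℝ) * 2 ^ j) + 2 * ((m : ℝ) + 3) / ((N0 : ℝ) * 2 ^ (j + 1)) := by
      rw [pow_succ]
      field_simp
      ring
    linarith

theorem lower' (hN : 1 ≤ N0) (C : Constr m N0 M0 F τ r) {x : Cn (m + 2)} {k : ℕ}
    (hk : r k ≤ nrm x) (hx : nrm x ≤ 1) (j : ℕ) :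
    hh N0 F τ k x - 2 * (m + 3) / ((N0 : ℝ) * 2 ^ k) ≤ hh N0 F τ j x := by
  have hN' : (0 : ℝ) < N0 := by exact_mod_cast hN
  rcases le_total k j with h | h
  · have h1 := lower hN C hk hx h
    have h2 : 0 ≤ 2 * ((m : ℝ) + 3) / ((N0 : ℝ) * 2 ^ j) := by positivity
    linarith
  · have h1 := anti_le C hx h
    have h2 : 0 ≤ 2 * ((m : ℝ) + 3) / ((N0 : ℝ) * 2 ^ k) := by positivity
    linarith

theorem phi_le (x : Cn (m + 2)) (k : ℕ) : phi N0 F τ x ≤ (hh N0 F τ k x : EReal) :=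
  iInf_le _ k

theorem le_phi (hN : 1 ≤ N0) (C : Constr m N0 M0 F τ r) {x : Cn (m + 2)} {k : ℕ}
    (hk : r k ≤ nrm x) (hx : nrm x ≤ 1) :
    ((hh N0 F τ k x - 2 * (m + 3) / ((N0 : ℝ) * 2 ^ k) : ℝ) : EReal) ≤ phi N0 F τ x :=
  le_iInf fun j => EReal.coe_le_coe_iff.2 (lower' hN C hk hx j)

theorem exists_r_le (C : Constr m N0 M0 F τ r) {x : Cn (m + 2)} (hx : 0 < nrm x) :
    ∃ k, r k < nrm x :=
  ((r_tendsto C).eventually (gt_mem_nhds hx)).exists

theorem phi_eq (hN : 1 ≤ N0) (C : Constr m N0 M0 F τ r) {x : Cn (m + 2)} (h0 : 0 < nrm x)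
    (hx : nrm x ≤ 1) : phi N0 F τ x = ((phi N0 F τ x).toReal : EReal) := by
  obtain ⟨k, hk⟩ := exists_r_le C h0
  have h1 := phi_le (N0 := N0) (F := F) (τ := τ) x 0
  have h2 := le_phi hN C hk.le hx
  exact (EReal.coe_toReal (ne_top_of_le_ne_top (EReal.coe_ne_top _) h1)
    (ne_bot_of_le_ne_bot (EReal.coe_ne_bot _) h2)).symm

theorem g_le (hN : 1 ≤ N0) (C : Constr m N0 M0 F τ r) {x : Cn (m + 2)} (h0 : 0 < nrm x)
    (hx : nrm x ≤ 1) (k : ℕ) : (phi N0 F τ x).toReal ≤ hh N0 F τ k x := by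
  have h1 := phi_le (N0 := N0) (F := F) (τ := τ) x k
  rw [phi_eq hN C h0 hx] at h1
  exact EReal.coe_le_coe_iff.1 h1

theorem le_g (hN : 1 ≤ N0) (C : Constr m N0 M0 F τ r) {x : Cn (m + 2)} {k : ℕ}
    (hk : r k ≤ nrm x) (hx : nrm x ≤ 1) :
    hh N0 F τ k x - 2 * (m + 3) / ((N0 : ℝ) * 2 ^ k) ≤ (phi N0 F τ x).toReal := by
  have h1 := le_phi hN C hk hx
  rw [phi_eq hN C ((C.r_pos k).trans_le hk) hx] at h1
  exact EReal.coe_le_coe_iff.1 h1

theorem tendsto_phi (C : Constr m N0 M0 F τ r) {x : Cn (m + 2)} (hx : nrm x ≤ 1) :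
    Tendsto (fun k => (hh N0 F τ k x : EReal)) atTop (𝓝 (phi N0 F τ x)) :=
  tendsto_atTop_iInf fun _ _ h => EReal.coe_le_coe_iff.2 (anti_le C hx h)

theorem err_tendsto (hN : 1 ≤ N0) :
    Tendsto (fun k : ℕ => 2 * ((m : ℝ) + 3) / ((N0 : ℝ) * 2 ^ k)) atTop (𝓝 0) := by
  have hN' : (0 : ℝ) < N0 := by exact_mod_cast hN
  have h1 : Tendsto (fun k : ℕ => (2 * ((m : ℝ) + 3) / N0) * (1 / 2) ^ k) atTop
      (𝓝 ((2 * ((m : ℝ) + 3) / N0) * 0)) :=
    (tendsto_pow_atTop_nhds_zero_of_lt_one (by norm_num) (by norm_num)).const_mul _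
  rw [mul_zero] at h1
  refine h1.congr fun k => ?_
  rw [one_div, inv_pow]
  field_simp

theorem continuousOn_g (hN : 1 ≤ N0) (C : Constr m N0 M0 F τ r) :
    ContinuousOn (fun x => (phi N0 F τ x).toReal) {x | 0 < nrm x ∧ nrm x < 1} := by
  refine continuousOn_of_locally_uniform_approx_of_continuousWithinAt fun x hx u hu => ?_
  obtain ⟨ε, hε, hεu⟩ := Metric.mem_uniformity_dist.1 hu
  obtain ⟨k, hk⟩ := exists_r_le C hx.1
  obtain ⟨j, hj1, hj2⟩ := (((err_tendsto (m := m) hN).eventually (gt_mem_nhds hε)).and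
    (eventually_ge_atTop k)).exists
  refine ⟨{y | r k < nrm y} ∩ {x | 0 < nrm x ∧ nrm x < 1}, ?_, hh N0 F τ j,
    (continuous_hh C j).continuousWithinAt, ?_⟩
  · refine inter_mem ?_ self_mem_nhdsWithin
    exact mem_nhdsWithin_of_mem_nhds ((isOpen_lt continuous_const continuous_nrm).mem_nhds hk)
  · rintro y ⟨hy1, hy2, hy3⟩
    apply hεu
    rw [Real.dist_eq, abs_lt]
    have h1 := g_le hN C hy2 hy3.le j
    have h2 := le_g hN C ((r_anti C hj2).trans (le_of_lt hy1)) hy3.le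
    constructor <;> linarith

theorem not_lt_of_forall {L : EReal} {I : ℝ} (h : ∀ ε : ℝ, 0 < ε → L ≤ ((I + ε : ℝ) : EReal)) :
    L ≤ (I : EReal) := by
  by_contra hc
  obtain ⟨c, h1, h2⟩ := EReal.lt_iff_exists_real_btwn.1 (not_le.1 hc)
  have h3 := h (c - I) (sub_pos.2 (EReal.coe_lt_coe_iff.1 h1))
  rw [add_sub_cancel] at h3
  exact absurd h2 (not_lt.2 h3)

theorem sub_mean (h5 : Z5Stmt) (C : Constr m N0 M0 F τ r) (a v : Cn (m + 2))
    (hav : ∀ ζ : ℂ, ‖ζ‖ ≤ 1 → a + ζ • v ∈ uball (m + 2)) :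
    phi N0 F τ a ≤
      mean (fun θ : ℝ => phi N0 F τ (a + Complex.exp (θ * Complex.I) • v)) := by
  unfold mean
  refine le_iInf fun g => le_iInf fun hg => le_iInf fun hmaj => ?_
  refine not_lt_of_forall fun ε hε => ?_
  have hball : ∀ θ : ℝ, nrm (a + Complex.exp (θ * Complex.I) • v) ≤ 1 := fun θ =>
    le_of_lt (hav _ (by rw [Complex.norm_exp_ofReal_mul_I]))
  have hp : Continuous fun θ : ℝ => a + Complex.exp (θ * Complex.I) • v := by fun_prop
  have hc : ∀ k, Continuous fun θ : ℝ => hh N0 F τ k (a + Complex.exp (θ * Complex.I) • v) :=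
    fun k => (continuous_hh C k).comp hp
  obtain ⟨k, hk⟩ := (isCompact_Icc (a := (0 : ℝ)) (b := 2 * π)).elim_directed_cover
    (fun k => {θ : ℝ | hh N0 F τ k (a + Complex.exp (θ * Complex.I) • v) < g θ + ε})
    (fun k => isOpen_lt (hc k) (hg.add continuous_const))
    (fun θ _ => by
      have h1 : phi N0 F τ (a + Complex.exp (θ * Complex.I) • v) < ((g θ + ε : ℝ) : EReal) :=
        (hmaj θ).trans_lt (EReal.coe_lt_coe_iff.2 (by linarith))
      obtain ⟨k, hk⟩ := iInf_lt_iff.1 h1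
      exact Set.mem_iUnion.2 ⟨k, EReal.coe_lt_coe_iff.1 hk⟩)
    (Monotone.directed_le fun i j hij θ (hθ : _ < _) =>
      lt_of_le_of_lt (anti_le C (hball θ) hij) hθ)
  refine (phi_le a k).trans (EReal.coe_le_coe_iff.2 ?_)
  have h1 := h5.1 (m + 2) (fun x j => Phi (F k) (N0 * 2 ^ k) x j) ?_ (τ k)
    (1 / (2 * ((N0 : ℝ) * 2 ^ k))) ((m + 2) / ((N0 : ℝ) * 2 ^ k)) (C.tau_pos k) (by positivity)
    a v
  · change hh N0 F τ k a ≤ (2 * π)⁻¹ * ∫ θ in (0 : ℝ)..(2 * π),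
      hh N0 F τ k (a + Complex.exp (θ * Complex.I) • v) at h1
    refine h1.trans ?_
    have h2 : (∫ θ in (0 : ℝ)..(2 * π), hh N0 F τ k (a + Complex.exp (θ * Complex.I) • v)) ≤
        ∫ θ in (0 : ℝ)..(2 * π), (g θ + ε) := by
      refine intervalIntegral.integral_mono_on (by positivity) ((hc k).intervalIntegrable _ _)
        ((hg.add continuous_const).intervalIntegrable _ _) fun θ hθ => le_of_lt (hk hθ)
    rw [intervalIntegral.integral_add (hg.intervalIntegrable _ _)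
      (continuous_const.intervalIntegrable _ _), intervalIntegral.integral_const] at h2
    have h3 : (0 : ℝ) < 2 * π := by positivity
    calc (2 * π)⁻¹ * ∫ θ in (0 : ℝ)..(2 * π), hh N0 F τ k (a + Complex.exp (θ * Complex.I) • v)
        ≤ (2 * π)⁻¹ * ((∫ θ in (0 : ℝ)..(2 * π), g θ) + (2 * π - 0) • ε) :=
          mul_le_mul_of_nonneg_left h2 (by positivity)
      _ = (2 * π)⁻¹ * (∫ θ in (0 : ℝ)..(2 * π), g θ) + ε := by
          rw [mul_add, sub_zero, smul_eq_mul, ← mul_assoc, inv_mul_cancel₀ h3.ne', one_mul]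
  · intro j
    unfold Phi
    by_cases hj : j = 0
    · subst hj
      simpa using C.smooth k
    · simp only [Function.update_of_ne hj]
      fun_prop

theorem nrm_pos {n : ℕ} {x : Cn n} (hx : x ≠ 0) : 0 < nrm x := by
  unfold nrm
  rw [Real.sqrt_pos]
  obtain ⟨j, hj⟩ : ∃ j, x j ≠ 0 := by
    by_contra h
    push Not at h
    exact hx (funext h)
  exact Finset.sum_pos' (fun i _ => by positivity) ⟨j, Finset.mem_univ _, by positivity⟩

theorem nrm_zero {n : ℕ} : nrm (0 : Cn n) = 0 := by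
  simp [nrm]

theorem nrm_single {n : ℕ} (i : Fin n) (c : ℂ) : nrm (Pi.single i c) = ‖c‖ := by
  unfold nrm
  rw [Finset.sum_eq_single i]
  · simp
  · intro j _ hj
    simp [Pi.single_eq_of_ne hj]
  · simp

theorem isPSH_phi (h5 : Z5Stmt) (hN : 1 ≤ N0) (C : Constr m N0 M0 F τ r) :
    IsPSH (phi N0 F τ) (uball (m + 2)) := by
  refine ⟨fun x _ => ne_top_of_le_ne_top (EReal.coe_ne_top _) (phi_le x 0), ?_, ?_, ?_⟩
  · exact upperSemicontinuousOn_iInf fun k =>
      (continuous_coe_real_ereal.comp (continuous_hh C k)).upperSemicontinuous.upperSemicontinuousOn _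
  · refine ⟨Pi.single 1 (1 / 2 : ℂ), ?_, ?_⟩
    · change nrm _ < 1
      rw [nrm_single]
      norm_num
    · have h1 : nrm (Pi.single 1 (1 / 2 : ℂ) : Cn (m + 2)) = 1 / 2 := by
        rw [nrm_single]
        norm_num
      rw [phi_eq hN C (by rw [h1]; norm_num) (by rw [h1]; norm_num)]
      exact EReal.coe_ne_bot _
  · intro a v hav
    exact sub_mean h5 C a v hav

theorem phi_zero (C : Constr m N0 M0 F τ r) : phi N0 F τ 0 = ⊥ := by
  rw [EReal.eq_bot_iff_forall_lt]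
  intro y
  obtain ⟨k, hk⟩ := exists_nat_gt ((m : ℝ) + 2 - y)
  refine (phi_le 0 k).trans_lt (EReal.coe_lt_coe_iff.2 ?_)
  have := C.minf k
  linarith

theorem lelong_nonneg (hN : 1 ≤ N0) (C : Constr m N0 M0 F τ r) : 0 ≤ lelong (phi N0 F τ) := by
  have : NeBot (𝓝[≠] (0 : Cn (m + 2))) := Module.punctured_nhds_neBot ℝ _ 0
  have hn : Tendsto (fun z : Cn (m + 2) => nrm z) (𝓝[≠] 0) (𝓝[>] 0) := by
    refine tendsto_nhdsWithin_iff.2 ⟨?_, ?_⟩
    · have h1 := (continuous_nrm (n := m + 2)).tendsto 0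
      rw [nrm_zero] at h1
      exact h1.mono_left nhdsWithin_le_nhds
    · filter_upwards [self_mem_nhdsWithin] with z hz
      exact nrm_pos hz
  have h1 : Tendsto (fun z : Cn (m + 2) => ((hh N0 F τ 0 0 + 1) / Real.log (nrm z) : ℝ))
      (𝓝[≠] 0) (𝓝 0) := (Real.tendsto_log_nhdsGT_zero.comp hn).const_div_atBot _
  have h2 : Tendsto (fun z : Cn (m + 2) =>
      (((hh N0 F τ 0 0 + 1) / Real.log (nrm z) : ℝ) : EReal)) (𝓝[≠] 0) (𝓝 ((0 : ℝ) : EReal)) :=
    (continuous_coe_real_ereal.tendsto _).comp h1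
  rw [← EReal.coe_zero, ← h2.liminf_eq]
  unfold lelong
  refine liminf_le_liminf ?_
  have h3 : ∀ᶠ z in 𝓝[≠] (0 : Cn (m + 2)), nrm z < 1 :=
    (hn.mono_right nhdsWithin_le_nhds).eventually (gt_mem_nhds one_pos)
  have h4 : ∀ᶠ z in 𝓝[≠] (0 : Cn (m + 2)), hh N0 F τ 0 z < hh N0 F τ 0 0 + 1 :=
    (((continuous_hh C 0).tendsto 0).mono_left nhdsWithin_le_nhds).eventually
      (gt_mem_nhds (by linarith))
  filter_upwards [h3, h4, self_mem_nhdsWithin] with z hz1 hz2 hz3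
  have hz : 0 < nrm z := nrm_pos hz3
  rw [phi_eq hN C hz hz1.le, ← EReal.coe_div, EReal.coe_le_coe_iff,
    div_le_div_right_of_neg (Real.log_neg hz hz1)]
  exact (g_le hN C hz hz1.le 0).trans hz2.le

theorem lelong_nonpos (hN : 1 ≤ N0) (C : Constr m N0 M0 F τ r) : lelong (phi N0 F τ) ≤ 0 := by
  have hN' : (0 : ℝ) < N0 := by exact_mod_cast hN
  rw [← EReal.coe_zero]
  refine not_lt_of_forall fun ε hε => ?_
  rw [zero_add]
  have hx : Tendsto (fun k => (Pi.single 1 ((r (k + 1) : ℝ) : ℂ) : Cn (m + 2))) atTop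
      (𝓝[≠] 0) := by
    refine tendsto_nhdsWithin_iff.2 ⟨?_, ?_⟩
    · have h1 : Tendsto (fun k => ((r (k + 1) : ℝ) : ℂ)) atTop (𝓝 ((0 : ℝ) : ℂ)) :=
        (Complex.continuous_ofReal.tendsto _).comp ((tendsto_add_atTop_iff_nat 1).2 (r_tendsto C))
      have h2 : Continuous (fun c : ℂ => (Pi.single 1 c : Cn (m + 2))) := by
        refine continuous_pi fun i => ?_
        by_cases hi : i = 1
        · subst hi
          simpa using (continuous_id' : Continuous fun a : ℂ => a)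
        · simpa [Pi.single_eq_of_ne hi] using continuous_const
      have h3 : Tendsto (fun k => (Pi.single 1 ((r (k + 1) : ℝ) : ℂ) : Cn (m + 2))) atTop
          (𝓝 (Pi.single 1 ((0 : ℝ) : ℂ))) := (h2.tendsto ((0 : ℝ) : ℂ)).comp h1
      simpa using h3
    · refine Eventually.of_forall fun k => ?_
      rw [Set.mem_compl_singleton_iff, Ne, Pi.single_eq_zero_iff, Complex.ofReal_eq_zero]
      exact (C.r_pos _).ne'
  refine liminf_le_of_frequently_le' (hx.frequently (Eventually.frequently ?_))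
  have h0 : Tendsto (fun k : ℕ => 2 / ((N0 : ℝ) * 2 ^ k) +
      2 * (2 * ((m : ℝ) + 3) / ((N0 : ℝ) * 2 ^ (k + 1)))) atTop (𝓝 (0 + 2 * 0)) := by
    refine Tendsto.add ?_ (((tendsto_add_atTop_iff_nat 1).2 (err_tendsto (m := m) hN)).const_mul 2)
    have h1 : Tendsto (fun k : ℕ => (2 / (N0 : ℝ)) * (1 / 2) ^ k) atTop
        (𝓝 ((2 / (N0 : ℝ)) * 0)) :=
      (tendsto_pow_atTop_nhds_zero_of_lt_one (by norm_num) (by norm_num)).const_mul _
    rw [mul_zero] at h1
    refine h1.congr fun k => ?_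
    rw [one_div, inv_pow]
    field_simp
  rw [mul_zero, add_zero] at h0
  filter_upwards [h0.eventually (gt_mem_nhds hε), eventually_ge_atTop 1] with k hk1 hk2
  have hr0 : 0 < r (k + 1) := C.r_pos _
  have hr1 : r (k + 1) ≤ 1 / 8 := by
    refine (r_le C (k + 1)).trans ?_
    have : ((1 : ℝ) / 2) ^ (k + 1) ≤ (1 / 2) ^ 1 :=
      pow_le_pow_of_le_one (by norm_num) (by norm_num) (by omega)
    linarith
  have hnr : nrm (Pi.single 1 ((r (k + 1) : ℝ) : ℂ) : Cn (m + 2)) = r (k + 1) := by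
    rw [nrm_single, Complex.norm_real, Real.norm_of_nonneg hr0.le]
  have hlog : Real.log (r (k + 1)) ≤ -(1 / 2) := by
    have := Real.log_le_sub_one_of_pos hr0
    linarith
  have h1 := C.lel k hk2
  have h2 := le_g hN C (x := (Pi.single 1 ((r (k + 1) : ℝ) : ℂ) : Cn (m + 2))) (k := k + 1)
    hnr.ge (by rw [hnr]; linarith)
  rw [phi_eq hN C (by rw [hnr]; exact hr0) (by rw [hnr]; linarith), hnr, ← EReal.coe_div,
    EReal.coe_le_coe_iff, div_le_iff_of_neg (by linarith)]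
  have h3 : 0 ≤ 2 * ((m : ℝ) + 3) / ((N0 : ℝ) * 2 ^ (k + 1)) := by positivity
  have h4 : ε * Real.log (r (k + 1)) ≤ (2 / ((N0 : ℝ) * 2 ^ k) +
      2 * (2 * ((m : ℝ) + 3) / ((N0 : ℝ) * 2 ^ (k + 1)))) * Real.log (r (k + 1)) :=
    mul_le_mul_of_nonpos_right hk1.le (by linarith)
  have h5 : 2 * (2 * ((m : ℝ) + 3) / ((N0 : ℝ) * 2 ^ (k + 1))) * Real.log (r (k + 1)) ≤
      - (2 * ((m : ℝ) + 3) / ((N0 : ℝ) * 2 ^ (k + 1))) := by
    nlinarith
  rw [add_mul] at h4
  linarith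

end

/-- Z9 -/
theorem z9 (h5 : Z5Stmt) : Z9Stmt := by
  intro m N0 M0 F τ r hN C
  refine ⟨isPSH_phi h5 hN C, le_antisymm (lelong_nonpos hN C) (lelong_nonneg hN C), phi_zero C,
    fun x hx => tendsto_phi C hx, fun x => (phi N0 F τ x).toReal, continuousOn_g hN C,
    fun x h0 h1 => phi_eq hN C h0 h1.le, fun k x hk hx => ⟨?_, ?_⟩⟩
  · exact g_le hN C ((C.r_pos k).trans_le hk) hx.le k
  · exact le_g hN C hk hx.le

end Pool.Agent.Helper94.ZM
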